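import Mathlib

/-!
# Tools for the landing inequality (area mean value, logarithmic area, change of variables, logarithm on a disc)

`TL_circ, TL_one` are copied from Pool/Agent/helper21/MP/HSM.lean, `TL_polar, TL_radial, TL_v2` from
Pool/Agent/helper38/EXQ/KER.lean.
-/

set_option autoImplicit false

open Complex Metric Set Filter Topology MeasureTheory

noncomputable section

namespace EG80

theorem TL_polar (φ : ℝ → ENNReal) (hφ : Measurable φ) :
    ∫⁻ z : ℂ, φ ‖z‖ = ENNReal.ofReal (2 * Real.pi) * ∫⁻ r in Ioi (0 : ℝ), ENNReal.ofReal r * φ r := by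
  rw [← Complex.lintegral_comp_polarCoord_symm (fun z => φ ‖z‖), _root_.polarCoord_target,
    Measure.volume_eq_prod, ← Measure.prod_restrict]
  have h1 : Measurable (fun p : ℝ × ℝ => ENNReal.ofReal p.1 * φ |p.1|) := by fun_prop
  simp only [Complex.norm_polarCoord_symm, smul_eq_mul]
  rw [lintegral_prod _ h1.aemeasurable]
  simp only [lintegral_const, Measure.restrict_apply MeasurableSet.univ, univ_inter,
    Real.volume_Ioo, sub_neg_eq_add]
  rw [lintegral_mul_const _ (by fun_prop), mul_comm, two_mul]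
  congr 1
  refine setLIntegral_congr_fun measurableSet_Ioi fun r hr => ?_
  rw [abs_of_pos (mem_Ioi.1 hr)]

/-- integral of a radial function over a set of radii -/
theorem TL_radial (S : Set ℝ) (hS : MeasurableSet S) (h : ℝ → ℝ) (hh : Measurable h) :
    ∫⁻ z : ℂ in {z : ℂ | ‖z‖ ∈ S}, ENNReal.ofReal (h ‖z‖) =
      ENNReal.ofReal (2 * Real.pi) * ∫⁻ r in Ioi (0 : ℝ) ∩ S, ENNReal.ofReal (r * h r) := by
  have hm : MeasurableSet {z : ℂ | ‖z‖ ∈ S} := measurable_norm hS
  have h1 : ∫⁻ z : ℂ in {z : ℂ | ‖z‖ ∈ S}, ENNReal.ofReal (h ‖z‖) =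
      ∫⁻ z : ℂ, S.indicator (fun r => ENNReal.ofReal (h r)) ‖z‖ := by
    rw [← lintegral_indicator hm]
    refine lintegral_congr fun z => ?_
    by_cases hz : ‖z‖ ∈ S
    · rw [indicator_of_mem hz, indicator_of_mem (show z ∈ {z : ℂ | ‖z‖ ∈ S} from hz)]
    · rw [indicator_of_notMem hz, indicator_of_notMem (show z ∉ {z : ℂ | ‖z‖ ∈ S} from hz)]
  rw [h1, TL_polar _ ((hh.ennreal_ofReal).indicator hS)]
  congr 1
  have h2 : ∀ r : ℝ, ENNReal.ofReal r * S.indicator (fun r => ENNReal.ofReal (h r)) r =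
      S.indicator (fun r => ENNReal.ofReal r * ENNReal.ofReal (h r)) r := by
    intro r
    by_cases hr : r ∈ S
    · rw [indicator_of_mem hr, indicator_of_mem hr]
    · rw [indicator_of_notMem hr, indicator_of_notMem hr, mul_zero]
  simp_rw [h2]
  rw [lintegral_indicator hS, Measure.restrict_restrict hS, inter_comm]
  refine setLIntegral_congr_fun (measurableSet_Ioi.inter hS) fun r hr => ?_
  rw [ENNReal.ofReal_mul (le_of_lt hr.1)]

theorem TL_v2 (s t : ℝ) (hs : 0 < s) (hst : s ≤ t) :
    ∫⁻ z : ℂ in {z : ℂ | ‖z‖ ∈ Ioc s t}, ENNReal.ofReal (1 / ‖z‖ ^ 2) =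
      ENNReal.ofReal (2 * Real.pi * Real.log (t / s)) := by
  have ht : 0 < t := hs.trans_le hst
  rw [TL_radial (Ioc s t) measurableSet_Ioc (fun r => 1 / r ^ 2) (by fun_prop),
    ENNReal.ofReal_mul (p := 2 * Real.pi) (q := Real.log (t / s)) (by positivity)]
  congr 1
  have h0 : Ioi (0 : ℝ) ∩ Ioc s t = Ioc s t :=
    inter_eq_right.2 fun r hr => hs.trans hr.1
  rw [h0]
  have h1 : ∀ r ∈ Ioc s t, ENNReal.ofReal (r * (1 / r ^ 2)) = ENNReal.ofReal (1 / r) := by
    intro r hr
    have hr0 : r ≠ 0 := (hs.trans hr.1).ne'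
    congr 1
    field_simp
  rw [setLIntegral_congr_fun measurableSet_Ioc h1]
  have hint : IntegrableOn (fun r : ℝ => 1 / r) (Ioc s t) := by
    have hc : ContinuousOn (fun r : ℝ => 1 / r) (Icc s t) :=
      continuousOn_const.div continuousOn_id fun r hr => (hs.trans_le hr.1).ne'
    exact hc.integrableOn_Icc.mono_set Ioc_subset_Icc_self
  have hnn : 0 ≤ᵐ[volume.restrict (Ioc s t)] fun r : ℝ => 1 / r := by
    filter_upwards [ae_restrict_mem measurableSet_Ioc] with r hr
    exact (one_div_pos.2 (hs.trans hr.1)).le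
  rw [← ofReal_integral_eq_lintegral_ofReal hint hnn, ← intervalIntegral.integral_of_le hst,
    integral_one_div_of_pos hs ht]

/-- circle sub-mean value property as a lower integral over `(-π, π)`. -/
theorem TL_circ {g : ℂ → ℂ} {a : ℂ} {r ρ : ℝ} (h0 : 0 < ρ) (hρ : ρ < r) (hg : DifferentiableOn ℂ g (ball a r)) :
    ENNReal.ofReal (2 * Real.pi * ‖g a‖) ≤
      ∫⁻ θ in Ioo (-Real.pi) Real.pi, ENNReal.ofReal ‖g (circleMap a ρ θ)‖ := by
  have hcl : closedBall a ρ ⊆ ball a r := closedBall_subset_ball hρ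
  have hd : DiffContOnCl ℂ g (ball a |ρ|) := by
    rw [abs_of_pos h0]
    refine (DifferentiableOn.diffContOnCl ?_)
    rw [closure_ball a h0.ne']
    exact hg.mono hcl
  have h1 := hd.circleAverage
  have hcont : Continuous fun θ : ℝ => g (circleMap a ρ θ) := by
    refine hg.continuousOn.comp_continuous (continuous_circleMap a ρ) fun θ => hcl ?_
    exact circleMap_mem_closedBall a h0.le θ
  have h2 : 2 * Real.pi * ‖g a‖ ≤ ∫ θ in (0 : ℝ)..(2 * Real.pi), ‖g (circleMap a ρ θ)‖ := by
    rw [← h1, Real.circleAverage_def, norm_smul, norm_inv, Real.norm_of_nonneg Real.two_pi_pos.le, ← mul_assoc,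
      mul_inv_cancel₀ Real.two_pi_pos.ne', one_mul]
    exact intervalIntegral.norm_integral_le_integral_norm Real.two_pi_pos.le
  have hper : Function.Periodic (fun θ : ℝ => ‖g (circleMap a ρ θ)‖) (2 * Real.pi) := by
    intro θ
    show ‖g (circleMap a ρ (θ + 2 * Real.pi))‖ = _
    rw [periodic_circleMap a ρ θ]
  have h3 : ∫ θ in (0 : ℝ)..(2 * Real.pi), ‖g (circleMap a ρ θ)‖ =
      ∫ θ in (-Real.pi)..Real.pi, ‖g (circleMap a ρ θ)‖ := by
    have := hper.intervalIntegral_add_eq 0 (-Real.pi)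
    rw [zero_add] at this
    rw [this]
    congr 1
    ring
  rw [h3, intervalIntegral.integral_of_le (by linarith [Real.pi_pos]), integral_Ioc_eq_integral_Ioo] at h2
  refine (ENNReal.ofReal_le_ofReal h2).trans (le_of_eq ?_)
  refine ofReal_integral_eq_lintegral_ofReal ?_ (Eventually.of_forall fun θ => norm_nonneg _)
  have : IntegrableOn (fun θ : ℝ => ‖g (circleMap a ρ θ)‖) (Icc (-Real.pi) Real.pi) :=
    (hcont.norm.continuousOn).integrableOn_compact isCompact_Icc
  exact this.mono_set Ioo_subset_Icc_self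

/-- area sub-mean value property for one function. -/
theorem TL_one {g : ℂ → ℂ} {a : ℂ} {r : ℝ} (hr : 0 < r) (hg : DifferentiableOn ℂ g (ball a r)) :
    ENNReal.ofReal (Real.pi * r ^ 2 * ‖g a‖) ≤ ∫⁻ z in ball a r, ENNReal.ofReal ‖g z‖ := by
  classical
  set φ : ℂ → ENNReal := (ball a r).indicator fun z => ENNReal.ofReal ‖g z‖ with hφ
  have hφm : Measurable φ := by
    rw [hφ, ← Set.piecewise_eq_indicator]
    refine ContinuousOn.measurable_piecewise ?_ continuousOn_const measurableSet_ball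
    exact ENNReal.continuous_ofReal.comp_continuousOn hg.continuousOn.norm
  rw [← lintegral_indicator measurableSet_ball, ← hφ, ← lintegral_add_left_eq_self φ a,
    ← Complex.lintegral_comp_polarCoord_symm]
  have hsub : Ioo (0 : ℝ) r ×ˢ Ioo (-Real.pi) Real.pi ⊆ polarCoord.target := by
    rintro ⟨x, y⟩ ⟨hx, hy⟩
    exact ⟨hx.1, hy⟩
  refine le_trans ?_ (lintegral_mono_set hsub)
  have hcs : Continuous fun p : ℝ × ℝ => (Complex.polarCoord.symm p : ℂ) := by
    have : (fun p : ℝ × ℝ => (Complex.polarCoord.symm p : ℂ)) =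
        fun p : ℝ × ℝ => (p.1 : ℂ) * (Real.cos p.2 + Real.sin p.2 * Complex.I) := by
      funext p
      exact Complex.polarCoord_symm_apply p
    rw [this]
    fun_prop
  have hmeas : Measurable fun p : ℝ × ℝ => ENNReal.ofReal p.1 • φ (a + Complex.polarCoord.symm p) := by
    refine Measurable.mul (ENNReal.measurable_ofReal.comp measurable_fst) ?_
    exact hφm.comp (measurable_const.add hcs.measurable)
  rw [Measure.volume_eq_prod, setLIntegral_prod _ hmeas.aemeasurable]
  have hin : ∀ ρ ∈ Ioo (0 : ℝ) r, ENNReal.ofReal ρ * ENNReal.ofReal (2 * Real.pi * ‖g a‖) ≤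
      ∫⁻ θ in Ioo (-Real.pi) Real.pi, ENNReal.ofReal ρ • φ (a + Complex.polarCoord.symm (ρ, θ)) := by
    intro ρ hρ
    have h1 := TL_circ hρ.1 hρ.2 hg
    simp only [smul_eq_mul]
    rw [lintegral_const_mul']
    · refine mul_le_mul' le_rfl (h1.trans (le_of_eq ?_))
      refine lintegral_congr fun θ => ?_
      have h2 : a + Complex.polarCoord.symm (ρ, θ) = circleMap a ρ θ := by
        rw [Complex.polarCoord_symm_apply, circleMap, Complex.exp_mul_I]
        push_cast
        rfl
      rw [h2, hφ, indicator_of_mem]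
      have := circleMap_mem_closedBall a hρ.1.le θ
      exact closedBall_subset_ball hρ.2 this
    · exact ENNReal.ofReal_ne_top
  calc ENNReal.ofReal (Real.pi * r ^ 2 * ‖g a‖)
      = ∫⁻ ρ in Ioo (0 : ℝ) r, ENNReal.ofReal ρ * ENNReal.ofReal (2 * Real.pi * ‖g a‖) := by
        rw [lintegral_mul_const' _ _ ENNReal.ofReal_ne_top]
        have h5 : ∫⁻ ρ in Ioo (0 : ℝ) r, ENNReal.ofReal ρ = ENNReal.ofReal (r ^ 2 / 2) := by
          rw [← ofReal_integral_eq_lintegral_ofReal]
          · congr 1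
            rw [← integral_Ioc_eq_integral_Ioo, ← intervalIntegral.integral_of_le hr.le, integral_id]
            ring
          · have : IntegrableOn (fun x : ℝ => x) (Icc 0 r) := continuous_id.continuousOn.integrableOn_compact isCompact_Icc
            exact this.mono_set Ioo_subset_Icc_self
          · filter_upwards [ae_restrict_mem measurableSet_Ioo] with x hx
            exact hx.1.le
        rw [h5, ← ENNReal.ofReal_mul (by positivity)]
        congr 1
        ring
    _ ≤ _ := by
        refine setLIntegral_mono' measurableSet_Ioo hin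


/-- the area mean value inequality for the square -/
theorem TL_sq {g : ℂ → ℂ} {a : ℂ} {r : ℝ} (hr : 0 < r) (hg : DifferentiableOn ℂ g (ball a r)) :
    ENNReal.ofReal (Real.pi * r ^ 2 * ‖g a‖ ^ 2) ≤ ∫⁻ z in ball a r, ENNReal.ofReal (‖g z‖ ^ 2) := by
  have h := TL_one (g := fun z => g z * g z) hr (hg.mul hg)
  simpa [norm_mul, pow_two] using h

theorem TL_det (A : ℂ →L[ℂ] ℂ) : (A.restrictScalars ℝ).det = ‖A 1‖ ^ 2 := by
  have h1 : (A.restrictScalars ℝ).det = LinearMap.det ((A : ℂ →ₗ[ℂ] ℂ).restrictScalars ℝ) := rfl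
  rw [h1, LinearMap.det_restrictScalars, Algebra.norm_complex_apply, LinearMap.det_ring,
    Complex.sq_norm]
  rfl

/-- change of variables for an injective holomorphic function on an open set -/
theorem TL_cv {g : ℂ → ℂ} {U S : Set ℂ} (hU : IsOpen U) (hS : MeasurableSet S) (hSU : S ⊆ U)
    (hg : DifferentiableOn ℂ g U) (hi : InjOn g S) (F : ℂ → ENNReal) :
    ∫⁻ z in g '' S, F z = ∫⁻ x in S, ENNReal.ofReal (‖deriv g x‖ ^ 2) * F (g x) := by
  have hd : ∀ x ∈ S, HasFDerivWithinAt g ((ContinuousLinearMap.toSpanSingleton ℂ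
      (deriv g x) : ℂ →L[ℂ] ℂ).restrictScalars ℝ) S x := by
    intro x hx
    have h1 : HasDerivAt g (deriv g x) x := (hg.differentiableAt (hU.mem_nhds (hSU hx))).hasDerivAt
    exact (h1.hasFDerivAt.restrictScalars ℝ).hasFDerivWithinAt
  rw [lintegral_image_eq_lintegral_abs_det_fderiv_mul volume hS hd hi]
  apply setLIntegral_congr_fun hS
  intro x _
  simp only
  rw [TL_det]
  simp

/-- logarithm on a disc -/
theorem TL_log {u : ℂ → ℂ} {c : ℂ} {r : ℝ} (hr : 0 < r) (hu : DifferentiableOn ℂ u (ball c r))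
    (h0 : ∀ z ∈ ball c r, u z ≠ 0) :
    ∃ g : ℂ → ℂ, (∀ z ∈ ball c r, HasDerivAt g (deriv u z / u z) z) ∧ ∀ z ∈ ball c r, Complex.exp (g z) = u z := by
  have hdu : DifferentiableOn ℂ (deriv u) (ball c r) := hu.deriv isOpen_ball
  have hq : DifferentiableOn ℂ (fun z => deriv u z / u z) (ball c r) := hdu.div hu h0
  obtain ⟨g, hg0, hg⟩ := (hq.isExactOn_ball).with_val_at c (Complex.log (u c))
  refine ⟨g, hg, ?_⟩
  have hc : c ∈ ball c r := mem_ball_self hr
  -- the function u * exp (-g) is constant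
  have hd : ∀ z ∈ ball c r, HasDerivAt (fun z => u z * Complex.exp (-g z)) 0 z := by
    intro z hz
    have h1 : HasDerivAt u (deriv u z) z := (hu.differentiableAt (isOpen_ball.mem_nhds hz)).hasDerivAt
    have h2 := ((hg z hz).neg).cexp
    have h3 := h1.mul h2
    refine h3.congr_deriv ?_
    have := h0 z hz
    field_simp
    ring
  have hconst : ∀ z ∈ ball c r, u z * Complex.exp (-g z) = u c * Complex.exp (-g c) := by
    intro z hz
    refine (convex_ball c r).is_const_of_fderivWithin_eq_zero (𝕜 := ℂ) (f := fun z => u z * Complex.exp (-g z)) ?_ ?_ hz hc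
    · exact fun w hw => (hd w hw).differentiableAt.differentiableWithinAt
    · intro w hw
      have hw' := (hd w hw).hasFDerivAt.hasFDerivWithinAt (s := ball c r)
      rw [hw'.fderivWithin (isOpen_ball.uniqueDiffWithinAt hw)]
      ext
      simp
  intro z hz
  have h1 := hconst z hz
  have h2 : u c * Complex.exp (-g c) = 1 := by
    rw [hg0, Complex.exp_neg, Complex.exp_log (h0 c hc), mul_inv_cancel₀ (h0 c hc)]
  rw [h2, Complex.exp_neg] at h1
  have h3 : Complex.exp (g z) ≠ 0 := Complex.exp_ne_zero _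
  field_simp at h1
  exact h1.symm

end EG80
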