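import Pool.Agent.helper80.EG.Torus

/-! # The landing inequality: main theorem -/

set_option autoImplicit false

open Complex Metric Set Filter Topology MeasureTheory

noncomputable section

namespace EG80

theorem TOR_near {F : ℂ → ℂ} {p lam : ℂ} (hF : HasDerivAt F lam p) (hp : F p = p) (h1 : 1 ≤ ‖lam‖) {δ : ℝ} (hδ : 0 < δ) :
    ∃ ε > 0, ∀ z, ‖z - p‖ < ε → ‖F z - p‖ ≤ ‖lam‖ * (1 + δ) * ‖z - p‖ ∧ ‖lam‖ * (1 - δ) * ‖z - p‖ ≤ ‖F z - p‖ := by
  have h := (hasDerivAt_iff_isLittleO.1 hF).def (by positivity : 0 < δ * ‖lam‖)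
  obtain ⟨ε, hε, h⟩ := Metric.eventually_nhds_iff.1 h
  refine ⟨ε, hε, fun z hz => ?_⟩
  have h2 := h (by rwa [dist_eq_norm])
  rw [smul_eq_mul, hp, mul_comm (z - p)] at h2
  have h3 : ‖lam * (z - p)‖ = ‖lam‖ * ‖z - p‖ := norm_mul _ _
  constructor
  · calc ‖F z - p‖ = ‖(F z - p - lam * (z - p)) + lam * (z - p)‖ := by ring_nf
      _ ≤ δ * ‖lam‖ * ‖z - p‖ + ‖lam‖ * ‖z - p‖ := (norm_add_le _ _).trans (add_le_add h2 h3.le)
      _ = _ := by ring
  · have h4 : ‖lam * (z - p)‖ ≤ ‖F z - p‖ + ‖F z - p - lam * (z - p)‖ := by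
      calc ‖lam * (z - p)‖ = ‖(F z - p) - (F z - p - lam * (z - p))‖ := by ring_nf
        _ ≤ _ := norm_sub_le _ _
    rw [h3] at h4
    nlinarith

theorem TOR_mu {F : ℂ → ℂ} {p lam : ℂ} (hF : HasDerivAt F lam p) (hp : F p = p) (h1 : 1 ≤ ‖lam‖) {v v' : ℕ → ℂ}
    (hv : ∀ j, v j ≠ p) (hlim : Tendsto v atTop (𝓝 p)) (hs : ∀ j, F (v j) = v' j) :
    Tendsto (fun j => mlog ((v' j - p) / (v j - p))) atTop (𝓝 (mlog lam)) := by
  have h0 : lam ≠ 0 := by
    intro h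
    rw [h, norm_zero] at h1
    linarith
  refine (mlog_cont h0).tendsto.comp ?_
  have h2 := hasDerivAt_iff_tendsto_slope.1 hF
  have h3 : Tendsto v atTop (𝓝[≠] p) :=
    tendsto_nhdsWithin_iff.2 ⟨hlim, Eventually.of_forall hv⟩
  refine (h2.comp h3).congr fun j => ?_
  simp only [Function.comp, slope, vsub_eq_sub, smul_eq_mul, hp, hs]
  rw [div_eq_inv_mul]

/-- bounds of the backward images after `k` further steps -/
theorem TOR_geo {F : ℂ → ℂ} {p : ℂ} {l δ ε S T : ℝ} (hl : 1 ≤ l) (hδ0 : 0 < δ) (hδ1 : δ < 1)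
    (hε : ∀ z, ‖z - p‖ < ε → ‖F z - p‖ ≤ l * (1 + δ) * ‖z - p‖ ∧ l * (1 - δ) * ‖z - p‖ ≤ ‖F z - p‖)
    {v : ℕ → ℂ} (hv : ∀ j, ‖v j - p‖ < ε) (hb : ∀ j, F (v (j + 1)) = v j) (hS : S ≤ ‖v 0 - p‖) (hT : ‖v 0 - p‖ ≤ T) (k : ℕ) :
    S / (l * (1 + δ)) ^ k ≤ ‖v k - p‖ ∧ ‖v k - p‖ ≤ T / (1 - δ) ^ k := by
  have hδ' : 0 < 1 - δ := by linarith
  have hl' : 0 < l * (1 + δ) := by nlinarith
  induction k with
  | zero => simpa using ⟨hS, hT⟩
  | succ k ih =>
    obtain ⟨h1, h2⟩ := hε (v (k + 1)) (hv _)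
    rw [hb] at h1 h2
    constructor
    · rw [pow_succ, ← div_div, div_le_iff₀ hl']
      linarith [ih.1]
    · rw [pow_succ, ← div_div, le_div_iff₀ hδ']
      have h3 : (1 - δ) * ‖v (k + 1) - p‖ ≤ l * (1 - δ) * ‖v (k + 1) - p‖ := by
        have : 0 ≤ (1 - δ) * ‖v (k + 1) - p‖ := by positivity
        nlinarith
      linarith [ih.2]

theorem TOR_log {δ η : ℝ} (hδ0 : 0 < δ) (hδ1 : δ ≤ 1 / 2) (hδη : 4 * δ ≤ η) : Real.log (1 + δ) - Real.log (1 - δ) ≤ η := by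
  have h1 : Real.log (1 + δ) ≤ δ := by
    have := Real.log_le_sub_one_of_pos (by linarith : 0 < 1 + δ)
    linarith
  have h2 : -Real.log (1 - δ) ≤ 2 * δ := by
    rw [← Real.log_inv]
    have h3 := Real.log_le_sub_one_of_pos (inv_pos.2 (by linarith : 0 < 1 - δ))
    refine h3.trans ?_
    rw [sub_le_iff_le_add, inv_le_iff_one_le_mul₀ (by linarith)]
    nlinarith
  linarith

/-- one value of the error -/
theorem TOR_eta {ι : Type*} [Fintype ι] [DecidableEq ι] [Nonempty ι] {F : ℂ → ℂ} {p lam : ℂ} (hF : HasDerivAt F lam p) (hp : F p = p)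
    (h1 : 1 ≤ ‖lam‖) (Ξ : ι → ℕ → ℂ → ℂ) (w : ι → ℂ) (M : ℕ)
    (hd : ∀ i j, DifferentiableOn ℂ (Ξ i j) (ball 0 3))
    (hi : ∀ i j, InjOn (Ξ i j) (ball 0 2))
    (hne : ∀ i j, ∀ x ∈ ball (0 : ℂ) 3, Ξ i j x ≠ p)
    (hlim : ∀ i, ∀ ε > 0, ∀ᶠ j in atTop, ∀ x ∈ closedBall (0 : ℂ) 2, ‖Ξ i j x - p‖ < ε)
    (hb : ∀ i j, ∀ x ∈ closedBall (0 : ℂ) 2, F (Ξ i (j + 1) x) = Ξ i j x)
    (hs : ∀ i j, F (Ξ i j 0) = Ξ i j (w i)) (hw : ∀ i, ‖w i‖ ≤ 3 / 2)
    (hM : ∀ z, ∀ s : Finset (ι × ℕ), (∀ k ∈ s, z ∈ Ξ k.1 k.2 '' ball 0 2) → s.card ≤ M) {η : ℝ} (hη : 0 < η) :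
    (Fintype.card ι : ℝ) * (mlog lam ^ 2 / 3 - η) ≤ M * (2 * Real.pi * (Real.log ‖lam‖ + η)) := by
  have h03 : (0 : ℂ) ∈ ball (0 : ℂ) 3 := mem_ball_self (by norm_num)
  have h02 : (0 : ℂ) ∈ closedBall (0 : ℂ) 2 := mem_closedBall_self (by norm_num)
  have hc23 : closedBall (0 : ℂ) 2 ⊆ ball 0 3 := closedBall_subset_ball (by norm_num)
  have hb2 : ball (0 : ℂ) 2 ⊆ closedBall 0 2 := ball_subset_closedBall
  set δ := min (1 / 2) (η / 4) with hδdef
  have hδ0 : 0 < δ := lt_min (by norm_num) (by positivity)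
  have hδ1 : δ ≤ 1 / 2 := min_le_left _ _
  have hδη : 4 * δ ≤ η := by
    have := min_le_right (1 / 2) (η / 4)
    linarith
  obtain ⟨ε, hε0, hε⟩ := TOR_near hF hp h1 hδ0
  -- the multipliers of one step
  have hmu : ∀ i, ∀ᶠ j in atTop, mlog lam ^ 2 / 3 - η ≤ mlog ((Ξ i j (w i) - p) / (Ξ i j 0 - p)) ^ 2 / 3 := by
    intro i
    have ht : Tendsto (fun j => Ξ i j 0) atTop (𝓝 p) := by
      rw [Metric.tendsto_nhds]
      intro e he
      filter_upwards [hlim i e he] with j hj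
      rw [dist_eq_norm]
      exact hj 0 h02
    have h3 := TOR_mu hF hp h1 (fun j => hne i j 0 h03) ht (fun j => hs i j)
    have h4 := (h3.pow 2).div_const 3
    filter_upwards [h4.eventually (lt_mem_nhds (by linarith : mlog lam ^ 2 / 3 - η < mlog lam ^ 2 / 3))] with j hj
    exact hj.le
  have hall : ∀ᶠ j in atTop, ∀ i, (∀ x ∈ closedBall (0 : ℂ) 2, ‖Ξ i j x - p‖ < ε) ∧
      mlog lam ^ 2 / 3 - η ≤ mlog ((Ξ i j (w i) - p) / (Ξ i j 0 - p)) ^ 2 / 3 :=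
    eventually_all.2 fun i => (hlim i ε hε0).and (hmu i)
  obtain ⟨n, hn⟩ := eventually_atTop.1 hall
  -- bounds at the level n
  have hcomp : IsCompact (closedBall (0 : ℂ) 2) := isCompact_closedBall _ _
  have hcont : ∀ i, ContinuousOn (fun x => ‖Ξ i n x - p‖) (closedBall 0 2) := fun i =>
    (((hd i n).continuousOn.mono hc23).sub continuousOn_const).norm
  have hmin : ∀ i, ∃ s > 0, ∀ x ∈ closedBall (0 : ℂ) 2, s ≤ ‖Ξ i n x - p‖ := by
    intro i
    obtain ⟨x0, hx0, hx⟩ := hcomp.exists_isMinOn ⟨0, h02⟩ (hcont i)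
    exact ⟨_, norm_pos_iff.2 (sub_ne_zero.2 (hne i n x0 (hc23 hx0))), fun x hx' => hx hx'⟩
  choose S' hS'0 hS' using hmin
  obtain ⟨i0, hi0⟩ := Finite.exists_min S'
  set S := S' i0 with hSdef
  have hS0 : 0 < S := hS'0 i0
  have hT : ∀ i, ∀ x ∈ closedBall (0 : ℂ) 2, ‖Ξ i n x - p‖ ≤ ε := fun i x hx => ((hn n le_rfl i).1 x hx).le
  set l := ‖lam‖ with hl
  have hbd : ∀ i k, ∀ x ∈ closedBall (0 : ℂ) 2, S / (l * (1 + δ)) ^ k ≤ ‖Ξ i (n + k) x - p‖ ∧
      ‖Ξ i (n + k) x - p‖ ≤ ε / (1 - δ) ^ k := by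
    intro i k x hx
    exact TOR_geo (v := fun k => Ξ i (n + k) x) h1 hδ0 (by linarith) hε (fun j => (hn _ (by omega) i).1 x hx)
      (fun j => hb i (n + j) x hx) ((hi0 i).trans (hS' i x hx)) (hT i x hx) k
  have hl1 : 1 ≤ l * (1 + δ) := by nlinarith
  have hlpos : 0 < l * (1 + δ) := by linarith
  have hδ' : 0 < 1 - δ := by linarith
  -- one N
  have key : ∀ N : ℕ, (Fintype.card ι : ℝ) * N * (mlog lam ^ 2 / 3 - η) ≤
      M * (2 * Real.pi * (Real.log (2 * ε / S) + N * (Real.log l + η))) := by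
    intro N
    set s := S / (l * (1 + δ)) ^ N / 2 with hsdef
    set t := ε / (1 - δ) ^ N with htdef
    have hs0 : 0 < s := by positivity
    have hst0 : ∀ i, ∀ k < N, ∀ x ∈ ball (0 : ℂ) 2, s < ‖Ξ i (n + k) x - p‖ ∧ ‖Ξ i (n + k) x - p‖ ≤ t := by
      intro i k hk x hx
      obtain ⟨h3, h4⟩ := hbd i k x (hb2 hx)
      constructor
      · refine lt_of_lt_of_le ?_ h3
        have h5 : S / (l * (1 + δ)) ^ N ≤ S / (l * (1 + δ)) ^ k :=
          div_le_div_of_nonneg_left hS0.le (by positivity) (pow_le_pow_right₀ hl1 hk.le)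
        have h6 : 0 < S / (l * (1 + δ)) ^ N := by positivity
        linarith
      · refine h4.trans ?_
        refine div_le_div_of_nonneg_left hε0.le (by positivity) ?_
        exact pow_le_pow_of_le_one hδ'.le (by linarith) hk.le
    have hst : s ≤ t := by
      obtain ⟨h3, _⟩ := hbd i0 0 0 h02
      have h4 := hT i0 0 h02
      have h5 : S ≤ ε := by
        have := hS' i0 0 h02
        linarith
      have h6 : S / (l * (1 + δ)) ^ N ≤ S := div_le_self hS0.le (one_le_pow₀ hl1)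
      have h7 : ε ≤ t := by
        rw [htdef, le_div_iff₀ (by positivity)]
        have : (1 - δ) ^ N ≤ 1 := pow_le_one₀ hδ'.le (by linarith)
        nlinarith
      have h8 : 0 < S / (l * (1 + δ)) ^ N := by positivity
      linarith
    have hT2 := TR_area (Finset.univ ×ˢ Finset.range N) (fun (k : ι × ℕ) x => Ξ k.1 (n + k.2) x - p)
      (fun k _ => (hd k.1 _).sub_const p) (fun k _ x hx y hy hxy => hi k.1 _ hx hy (sub_left_inj.1 hxy)) M ?_ s t
      (mlog lam ^ 2 / 3 - η) hs0 hst ?_ ?_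
    · rw [Finset.card_product, Finset.card_univ, Finset.card_range] at hT2
      push_cast at hT2
      refine hT2.trans ?_
      refine mul_le_mul_of_nonneg_left ?_ (Nat.cast_nonneg M)
      refine mul_le_mul_of_nonneg_left ?_ (by positivity)
      have h5 : t / s = 2 * ε / S * ((l * (1 + δ)) ^ N / (1 - δ) ^ N) := by
        rw [hsdef, htdef]
        field_simp
      have h5' : Real.log ((l * (1 + δ)) ^ N / (1 - δ) ^ N) =
          N * (Real.log l + Real.log (1 + δ)) - N * Real.log (1 - δ) := by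
        rw [Real.log_div (by positivity) (by positivity), Real.log_pow, Real.log_pow,
          Real.log_mul (by positivity) (by positivity)]
      rw [h5, Real.log_mul (by positivity) (by positivity), h5']
      have h6 := TOR_log hδ0 hδ1 hδη
      have h7 : (N : ℝ) * (Real.log (1 + δ) - Real.log (1 - δ)) ≤ N * η :=
        mul_le_mul_of_nonneg_left h6 (Nat.cast_nonneg N)
      nlinarith
    · intro z s' hs' hz
      -- the multiplicity
      have hinj : Function.Injective (fun k : ι × ℕ => (k.1, n + k.2)) := by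
        rintro ⟨a, b⟩ ⟨a', b'⟩ h
        simp only [Prod.mk.injEq, Nat.add_left_cancel_iff] at h
        exact Prod.ext h.1 h.2
      have h5 := hM (z + p) (s'.image fun k : ι × ℕ => (k.1, n + k.2)) (by
        intro k hk
        obtain ⟨k', hk', rfl⟩ := Finset.mem_image.1 hk
        obtain ⟨x, hx, hxz⟩ := hz k' hk'
        refine ⟨x, hx, ?_⟩
        simp only at hxz ⊢
        rw [← hxz]
        ring)
      rwa [Finset.card_image_of_injective _ hinj] at h5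
    · rintro ⟨i, k⟩ hk x hx
      rw [Finset.mem_product, Finset.mem_range] at hk
      exact hst0 i k hk.2 x hx
    · rintro ⟨i, k⟩ hk
      have h5 := (hn (n + k) (by omega) i).2
      refine (ENNReal.ofReal_le_ofReal h5).trans ?_
      refine TR_low (w := w i) ((hd i _).sub_const p) (fun z hz => sub_ne_zero.2 (hne i _ z hz)) (hw i) ?_
      have h6 : Ξ i (n + k) 0 - p ≠ 0 := sub_ne_zero.2 (hne i _ 0 h03)
      simp only
      rw [div_mul_cancel₀ _ h6]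
  -- the limit
  by_contra hcon
  push Not at hcon
  set a := (Fintype.card ι : ℝ) * (mlog lam ^ 2 / 3 - η) with ha
  set b := (M : ℝ) * (2 * Real.pi * (Real.log l + η)) with hb'
  set c := (M : ℝ) * (2 * Real.pi * Real.log (2 * ε / S)) with hc
  have h5 : ∀ N : ℕ, N * (a - b) ≤ c := by
    intro N
    have := key N
    rw [ha, hb', hc]
    nlinarith
  obtain ⟨N, hN⟩ := exists_nat_gt (c / (a - b))
  have h6 : 0 < a - b := by linarith
  rw [div_lt_iff₀ h6] at hN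
  linarith [h5 N]

/-- **TOR**: the landing inequality. -/
theorem TOR {ι : Type*} [Fintype ι] {F : ℂ → ℂ} {p lam : ℂ} (hF : HasDerivAt F lam p) (hp : F p = p)
    (h1 : 1 ≤ ‖lam‖) (h2 : lam ≠ 1) (Ξ : ι → ℕ → ℂ → ℂ) (w : ι → ℂ) (M : ℕ)
    (hd : ∀ i j, DifferentiableOn ℂ (Ξ i j) (ball 0 3))
    (hi : ∀ i j, InjOn (Ξ i j) (ball 0 2))
    (hne : ∀ i j, ∀ x ∈ ball (0 : ℂ) 3, Ξ i j x ≠ p)
    (hlim : ∀ i, ∀ ε > 0, ∀ᶠ j in atTop, ∀ x ∈ closedBall (0 : ℂ) 2, ‖Ξ i j x - p‖ < ε)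
    (hb : ∀ i j, ∀ x ∈ closedBall (0 : ℂ) 2, F (Ξ i (j + 1) x) = Ξ i j x)
    (hs : ∀ i j, F (Ξ i j 0) = Ξ i j (w i)) (hw : ∀ i, ‖w i‖ ≤ 3 / 2)
    (hM : ∀ z, ∀ s : Finset (ι × ℕ), (∀ k ∈ s, z ∈ Ξ k.1 k.2 '' ball 0 2) → s.card ≤ M) :
    (Fintype.card ι : ℝ) ≤ 1000 * M * ((1 / (lam - 1)).re + 1 / 2) := by
  classical
  have hlog : 0 ≤ Real.log ‖lam‖ := Real.log_nonneg h1
  refine TR_alg h1 h2 (Nat.cast_nonneg _) (Nat.cast_nonneg _) ?_
  rcases isEmpty_or_nonempty ι with hι | hι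
  · rw [Fintype.card_eq_zero]
    push_cast
    have := Real.pi_pos
    rw [zero_mul]
    positivity
  · have hη := fun η (hη : 0 < η) => TOR_eta hF hp h1 Ξ w M hd hi hne hlim hb hs hw hM (η := η) hη
    by_contra hcon
    push Not at hcon
    set n : ℝ := (Fintype.card ι : ℝ) with hn
    have hn0 : 0 ≤ n := Nat.cast_nonneg _
    have hM0 : (0 : ℝ) ≤ M := Nat.cast_nonneg _
    have hpi := Real.pi_pos
    set Δ := n * mlog lam ^ 2 - 6 * Real.pi * M * Real.log ‖lam‖ with hΔ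
    have hΔ0 : 0 < Δ := by linarith
    have hden : 0 < 2 * (3 * n + 6 * Real.pi * M + 1) := by positivity
    have h3 := hη (Δ / (2 * (3 * n + 6 * Real.pi * M + 1))) (by positivity)
    set e := Δ / (2 * (3 * n + 6 * Real.pi * M + 1)) with he
    have h4 : e * (2 * (3 * n + 6 * Real.pi * M + 1)) = Δ := div_mul_cancel₀ _ hden.ne'
    have he0 : 0 < e := by positivity
    nlinarith

end EG80
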