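import Pool.Agent.helper28.EG.Spec
import Pool.Agent.helper80.EG.Tor
import Pool.Agent.helper54.V3.SpecT

/-! # p2x:TOR: the TORUS inequality (several phases), direct proof by length and area -/

set_option autoImplicit false

open Complex Metric Set Filter Topology MeasureTheory
open WP (it)

noncomputable section

namespace EG

open EG80

/-- the distortion theorem for an injective logarithm gives the lower bound of the logarithmic derivative -/
theorem TOR_low {C : ℝ} (hC0 : 0 ≤ C) (hC : ∀ (G : ℂ → ℂ) (a : ℂ) (r : ℝ), 0 < r → DifferentiableOn ℂ G (ball a r) →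
    InjOn G (ball a r) → ∀ x ∈ ball a (r / 2), ‖G x - G a‖ ≤ C * ‖x - a‖ * ‖deriv G a‖)
    {u : ℂ → ℂ} {y : ℂ} {c s : ℝ} (hc : 0 < c) (hu : DifferentiableOn ℂ u (ball y c)) (hi : InjOn u (ball y c))
    (h0 : ∀ z ∈ ball y c, u z ≠ 0) {w w' : ℂ} (hw : w ∈ ball y (c / 2)) (hw' : ‖w' - w‖ < c / 4) (hs : ‖w' - w‖ ≤ s) :
    mlog (u w' / u w) ≤ C * s * ‖deriv u w / u w‖ := by
  obtain ⟨g, hg, hexp⟩ := TL_log hc hu h0
  have hwy : dist w y < c / 2 := hw
  have hsub : ball w (c / 2) ⊆ ball y c := ball_subset_ball' (by linarith)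
  have hgd : DifferentiableOn ℂ g (ball w (c / 2)) := fun z hz =>
    (hg z (hsub hz)).differentiableAt.differentiableWithinAt
  have hgi : InjOn g (ball w (c / 2)) := by
    intro a ha b hb hab
    refine hi (hsub ha) (hsub hb) ?_
    rw [← hexp a (hsub ha), ← hexp b (hsub hb), hab]
  have hx : w' ∈ ball w (c / 2 / 2) := by
    rw [mem_ball, dist_eq_norm]
    linarith
  have h1 := hC g w (c / 2) (by positivity) hgd hgi w' hx
  have hwc : w ∈ ball y c := hsub (mem_ball_self (by positivity))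
  have hwc' : w' ∈ ball y c := hsub (ball_subset_ball (by linarith) hx)
  have h2 : Complex.exp (g w' - g w) = u w' / u w := by
    rw [Complex.exp_sub, hexp w' hwc', hexp w hwc]
  refine (mlog_le h2).trans (h1.trans ?_)
  rw [(hg w hwc).deriv]
  refine mul_le_mul_of_nonneg_right ?_ (norm_nonneg _)
  exact mul_le_mul_of_nonneg_left hs hC0

/-- the area count with pairwise disjoint images of a measurable set -/
theorem TOR_area {κ : Type*} [DecidableEq κ] {y : ℂ} {c : ℝ} {β : Set ℂ} (hβ : MeasurableSet β) (hβc : β ⊆ ball y c)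
    (T : Finset κ) (v : κ → ℂ → ℂ) (hd : ∀ k ∈ T, DifferentiableOn ℂ (v k) (ball y c))
    (hi : ∀ k ∈ T, InjOn (v k) β) (hdis : ∀ k ∈ T, ∀ k' ∈ T, k ≠ k' → Disjoint (v k '' β) (v k' '' β))
    (s t a : ℝ) (ha0 : 0 ≤ a) (hs : 0 < s) (hst : s ≤ t)
    (hsv : ∀ k ∈ T, ∀ x ∈ β, s < ‖v k x‖ ∧ ‖v k x‖ ≤ t)
    (ha : ∀ k ∈ T, ∀ x ∈ β, a ≤ ‖deriv (v k) x / v k x‖ ^ 2) :
    T.card * (a * (volume β).toReal) ≤ 2 * Real.pi * Real.log (t / s) := by
  have hfin : volume β ≠ ⊤ := ((measure_mono hβc).trans_lt measure_ball_lt_top).ne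
  have hE : ∀ k ∈ T, MeasurableSet (v k '' β) := fun k hk =>
    hβ.image_of_continuousOn_injOn ((hd k hk).continuousOn.mono hβc) (hi k hk)
  have hfm : Measurable fun z : ℂ => ENNReal.ofReal (1 / ‖z‖ ^ 2) := by fun_prop
  have h1 := TR_sum T (fun k => v k '' β) hE 1 (by
    intro z s' hs' hz
    rw [Finset.card_le_one]
    intro k hk k' hk'
    by_contra hne
    exact Set.disjoint_left.1 (hdis k (hs' hk) k' (hs' hk') hne) (hz k hk) (hz k' hk'))
    {z : ℂ | ‖z‖ ∈ Ioc s t} (measurable_norm measurableSet_Ioc)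
    (by
      rintro k hk _ ⟨x, hx, rfl⟩
      exact hsv k hk x hx) _ hfm
  rw [TL_v2 s t hs hst, Nat.cast_one, one_mul] at h1
  have h2 : ∀ k ∈ T, ENNReal.ofReal (a * (volume β).toReal) ≤ ∫⁻ z in v k '' β, ENNReal.ofReal (1 / ‖z‖ ^ 2) := by
    intro k hk
    rw [TL_cv isOpen_ball hβ hβc (hd k hk) (hi k hk), ENNReal.ofReal_mul ha0, ENNReal.ofReal_toReal hfin]
    rw [← setLIntegral_const]
    refine setLIntegral_mono' hβ fun x hx => ?_
    rw [← ENNReal.ofReal_mul (by positivity)]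
    refine ENNReal.ofReal_le_ofReal ((ha k hk x hx).trans (le_of_eq ?_))
    rw [norm_div, div_pow]
    ring
  have h3 : ∑ _k ∈ T, ENNReal.ofReal (a * (volume β).toReal) ≤ ENNReal.ofReal (2 * Real.pi * Real.log (t / s)) :=
    (Finset.sum_le_sum h2).trans h1
  rw [Finset.sum_const, nsmul_eq_mul, ← ENNReal.ofReal_natCast, ← ENNReal.ofReal_mul (Nat.cast_nonneg _)] at h3
  have hlog : 0 ≤ Real.log (t / s) := Real.log_nonneg ((one_le_div hs).2 hst)
  exact (ENNReal.ofReal_le_ofReal_iff (by positivity)).1 h3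

/-- the multiplier near the fixed point -/
theorem TOR_slope {F : ℂ → ℂ} {p lam : ℂ} (hF : HasDerivAt F lam p) (hp : F p = p) (h1 : 1 ≤ ‖lam‖) {η : ℝ} (hη : 0 < η) :
    ∃ ε > 0, ∀ z, z ≠ p → ‖z - p‖ < ε → mlog lam - η ≤ mlog ((F z - p) / (z - p)) := by
  have h0 : lam ≠ 0 := by
    intro h
    rw [h, norm_zero] at h1
    linarith
  have h2 := (mlog_cont h0).tendsto.comp (hasDerivAt_iff_tendsto_slope.1 hF)
  have h3 := h2.eventually (lt_mem_nhds (by linarith : mlog lam - η < mlog lam))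
  rw [eventually_nhdsWithin_iff] at h3
  obtain ⟨ε, hε, h⟩ := Metric.eventually_nhds_iff.1 h3
  refine ⟨ε, hε, fun z hz hzp => ?_⟩
  have h4 := h (by rwa [dist_eq_norm]) (mem_compl_singleton_iff.2 hz)
  simp only [Function.comp, slope, vsub_eq_sub, smul_eq_mul, hp] at h4
  rw [div_eq_inv_mul]
  exact h4.le

/-- one value of the error -/
theorem TOR_eta2 {C : ℝ} (hC1 : 1 ≤ C) (hC : ∀ (G : ℂ → ℂ) (a : ℂ) (r : ℝ), 0 < r → DifferentiableOn ℂ G (ball a r) →
    InjOn G (ball a r) → ∀ x ∈ ball a (r / 2), ‖G x - G a‖ ≤ C * ‖x - a‖ * ‖deriv G a‖)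
    {ι : Type*} [Fintype ι] [DecidableEq ι] [Nonempty ι] {F A : ℂ → ℂ} {p lam y : ℂ} {c s₀ : ℝ} {β : Set ℂ}
    (hF : HasDerivAt F lam p) (hp : F p = p) (h1 : 1 ≤ ‖lam‖) (ξ : ι → ℕ → ℂ → ℂ)
    (htub : ∀ i, Tube F A y c (ξ i)) (hland : ∀ i, Lands y c (ξ i) p) (hne : ∀ i j, ∀ w ∈ ball y c, ξ i j w ≠ p)
    (hβ : MeasurableSet β) (hβc : β ⊆ ball y (c / 2)) (hβn : β.Nonempty) (hs₀ : 0 < s₀) (hsm : ∀ w ∈ β, ‖A w - w‖ ≤ s₀)
    (hdis : ∀ i i' j j', (i, j) ≠ (i', j') → Disjoint (ξ i j '' β) (ξ i' j' '' β)) {η : ℝ} (hη : 0 < η)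
    (hηl : η < mlog lam) :
    (Fintype.card ι : ℝ) * ((mlog lam - η) ^ 2 / (C * s₀) ^ 2 * (volume β).toReal) ≤
      2 * Real.pi * (Real.log ‖lam‖ + η) := by
  obtain ⟨i₁⟩ := ‹Nonempty ι›
  have hc : 0 < c := (htub i₁).c0
  have hC0 : 0 < C := by linarith
  have hcb : closedBall y (c / 2) ⊆ ball y c := closedBall_subset_ball (by linarith)
  have hbc : ball y c ⊆ ball y (2 * c) := ball_subset_ball (by linarith)
  have hβ2 : β ⊆ closedBall y (c / 2) := hβc.trans ball_subset_closedBall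
  have hβ1 : β ⊆ ball y c := hβ2.trans hcb
  have hyc : y ∈ closedBall y (c / 2) := mem_closedBall_self (by positivity)
  have hd : ∀ i j, DifferentiableOn ℂ (ξ i j) (ball y c) := fun i j => ((htub i).hol j).mono hbc
  have hi : ∀ i j, InjOn (ξ i j) (ball y c) := fun i j => ((htub i).inj j).mono hbc
  have hb : ∀ i j, ∀ w ∈ ball y c, F (ξ i (j + 1) w) = ξ i j w := fun i j w hw => (htub i).bk j w (hbc hw)
  set δ := min (1 / 2) (η / 4) with hδdef
  have hδ0 : 0 < δ := lt_min (by norm_num) (by positivity)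
  have hδ1 : δ ≤ 1 / 2 := min_le_left _ _
  have hδη : 4 * δ ≤ η := by
    have := min_le_right (1 / 2) (η / 4)
    linarith
  obtain ⟨ε₁, hε₁0, hε₁⟩ := TOR_near hF hp h1 hδ0
  obtain ⟨ε₂, hε₂0, hε₂⟩ := TOR_slope hF hp h1 hη
  set ε := min ε₁ ε₂ with hεdef
  have hε0 : 0 < ε := lt_min hε₁0 hε₂0
  have hε : ∀ z, ‖z - p‖ < ε → ‖F z - p‖ ≤ ‖lam‖ * (1 + δ) * ‖z - p‖ ∧ ‖lam‖ * (1 - δ) * ‖z - p‖ ≤ ‖F z - p‖ :=
    fun z hz => hε₁ z (hz.trans_le (min_le_left _ _))
  have hall : ∀ᶠ j in atTop, ∀ i, ∀ x ∈ ball y c, ‖ξ i j x - p‖ < ε := by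
    refine eventually_all.2 fun i => ?_
    have h3 := Metric.tendstoUniformlyOn_iff.1 (hland i) ε hε0
    filter_upwards [h3] with j hj x hx
    have h4 := hj x hx
    rwa [dist_comm, dist_eq_norm] at h4
  obtain ⟨n, hn⟩ := eventually_atTop.1 hall
  -- bounds at the level n
  have hcomp : IsCompact (closedBall y (c / 2)) := isCompact_closedBall _ _
  have hcont : ∀ i, ContinuousOn (fun x => ‖ξ i n x - p‖) (closedBall y (c / 2)) := fun i =>
    (((hd i n).continuousOn.mono hcb).sub continuousOn_const).norm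
  have hmin : ∀ i, ∃ s > 0, ∀ x ∈ closedBall y (c / 2), s ≤ ‖ξ i n x - p‖ := by
    intro i
    obtain ⟨x0, hx0, hx⟩ := hcomp.exists_isMinOn ⟨y, hyc⟩ (hcont i)
    exact ⟨_, norm_pos_iff.2 (sub_ne_zero.2 (hne i n x0 (hcb hx0))), fun x hx' => hx hx'⟩
  choose S' hS'0 hS' using hmin
  obtain ⟨i0, hi0⟩ := Finite.exists_min S'
  set S := S' i0 with hSdef
  have hS0 : 0 < S := hS'0 i0
  have hT : ∀ i, ∀ x ∈ closedBall y (c / 2), ‖ξ i n x - p‖ ≤ ε := fun i x hx => (hn n le_rfl i x (hcb hx)).le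
  set l := ‖lam‖ with hl
  have hbd : ∀ i k, ∀ x ∈ closedBall y (c / 2), S / (l * (1 + δ)) ^ k ≤ ‖ξ i (n + k) x - p‖ ∧
      ‖ξ i (n + k) x - p‖ ≤ ε / (1 - δ) ^ k := by
    intro i k x hx
    exact TOR_geo (v := fun k => ξ i (n + k) x) h1 hδ0 (by linarith) hε (fun j => hn _ (by omega) i x (hcb hx))
      (fun j => hb i (n + j) x (hcb hx)) ((hi0 i).trans (hS' i x hx)) (hT i x hx) k
  have hl1 : 1 ≤ l * (1 + δ) := by nlinarith
  have hlpos : 0 < l * (1 + δ) := by linarith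
  have hδ' : 0 < 1 - δ := by linarith
  -- the logarithmic derivative
  have hder : ∀ i, ∀ j ≥ n, ∀ x ∈ β, (mlog lam - η) ^ 2 / (C * s₀) ^ 2 ≤
      ‖deriv (fun z => ξ i j z - p) x / (ξ i j x - p)‖ ^ 2 := by
    intro i j hj x hx
    have hxc : x ∈ ball y c := hβ1 hx
    have h3 := TOR_low hC0.le hC hc (u := fun z => ξ i j z - p) (w := x) (w' := A x) (s := s₀) ((hd i j).sub_const p)
      (fun a ha b hb' hab => hi i j ha hb' (sub_left_inj.1 hab)) (fun z hz => sub_ne_zero.2 (hne i j z hz)) (hβc hx)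
      ((htub i).sm x hxc) (hsm x hx)
    have h4 := hε₂ (ξ i j x) (hne i j x hxc) ((hn j hj i x hxc).trans_le (min_le_right _ _))
    rw [(htub i).com j x hxc] at h4
    have h5 : mlog lam - η ≤ C * s₀ * ‖deriv (fun z => ξ i j z - p) x / (ξ i j x - p)‖ := h4.trans h3
    have h6 : 0 < C * s₀ := by positivity
    rw [← div_pow]
    refine pow_le_pow_left₀ (div_nonneg (by linarith) h6.le) ?_ 2
    rw [div_le_iff₀ h6]
    linarith
  obtain ⟨x₁, hx₁⟩ := hβn
  -- one N
  have key : ∀ N : ℕ, (Fintype.card ι : ℝ) * N * ((mlog lam - η) ^ 2 / (C * s₀) ^ 2 * (volume β).toReal) ≤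
      2 * Real.pi * (Real.log (2 * ε / S) + N * (Real.log l + η)) := by
    intro N
    set s := S / (l * (1 + δ)) ^ N / 2 with hsdef
    set t := ε / (1 - δ) ^ N with htdef
    have hs0 : 0 < s := by positivity
    have hst0 : ∀ i, ∀ k < N, ∀ x ∈ β, s < ‖ξ i (n + k) x - p‖ ∧ ‖ξ i (n + k) x - p‖ ≤ t := by
      intro i k hk x hx
      obtain ⟨h3, h4⟩ := hbd i k x (hβ2 hx)
      constructor
      · refine lt_of_lt_of_le ?_ h3
        have h5 : S / (l * (1 + δ)) ^ N ≤ S / (l * (1 + δ)) ^ k :=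
          div_le_div_of_nonneg_left hS0.le (by positivity) (pow_le_pow_right₀ hl1 hk.le)
        have h6 : 0 < S / (l * (1 + δ)) ^ N := by positivity
        linarith
      · refine h4.trans ?_
        refine div_le_div_of_nonneg_left hε0.le (by positivity) ?_
        exact pow_le_pow_of_le_one hδ'.le (by linarith) hk.le
    have hst : s ≤ t := by
      have h4 := hT i0 y hyc
      have h5 : S ≤ ε := by
        have := hS' i0 y hyc
        linarith
      have h6 : S / (l * (1 + δ)) ^ N ≤ S := div_le_self hS0.le (one_le_pow₀ hl1)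
      have h7 : ε ≤ t := by
        rw [htdef, le_div_iff₀ (by positivity)]
        have : (1 - δ) ^ N ≤ 1 := pow_le_one₀ hδ'.le (by linarith)
        nlinarith
      have h8 : 0 < S / (l * (1 + δ)) ^ N := by positivity
      linarith
    have hT2 := TOR_area hβ hβ1 (Finset.univ ×ˢ Finset.range N) (fun (k : ι × ℕ) x => ξ k.1 (n + k.2) x - p)
      (fun k _ => (hd k.1 _).sub_const p) (fun k _ x hx y hy hxy => hi k.1 _ (hβ1 hx) (hβ1 hy) (sub_left_inj.1 hxy)) ?_ s t
      ((mlog lam - η) ^ 2 / (C * s₀) ^ 2) (by positivity) hs0 hst ?_ ?_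
    · rw [Finset.card_product, Finset.card_univ, Finset.card_range] at hT2
      push_cast at hT2
      refine hT2.trans ?_
      refine mul_le_mul_of_nonneg_left ?_ (by positivity)
      have h5 : t / s = 2 * ε / S * ((l * (1 + δ)) ^ N / (1 - δ) ^ N) := by
        rw [hsdef, htdef]
        field_simp
      have h5' : Real.log ((l * (1 + δ)) ^ N / (1 - δ) ^ N) =
          N * (Real.log l + Real.log (1 + δ)) - N * Real.log (1 - δ) := by
        rw [Real.log_div (by positivity) (by positivity), Real.log_pow, Real.log_pow,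
          Real.log_mul (by positivity) (by positivity)]
      rw [h5, Real.log_mul (by positivity) (by positivity), h5']
      have h6 := EG80.TOR_log hδ0 hδ1 hδη
      have h7 : (N : ℝ) * (Real.log (1 + δ) - Real.log (1 - δ)) ≤ N * η :=
        mul_le_mul_of_nonneg_left h6 (Nat.cast_nonneg N)
      nlinarith
    · -- disjointness
      intro k _ k' _ hkk
      have h5 : (k.1, n + k.2) ≠ (k'.1, n + k'.2) := by
        intro h
        simp only [Prod.mk.injEq, Nat.add_left_cancel_iff] at h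
        exact hkk (Prod.ext h.1 h.2)
      rw [Set.disjoint_left]
      rintro _ ⟨a, ha, rfl⟩ ⟨b, hb', hab⟩
      have h6 : ξ k'.1 (n + k'.2) b = ξ k.1 (n + k.2) a := sub_left_inj.1 hab
      exact Set.disjoint_left.1 (hdis k.1 k'.1 (n + k.2) (n + k'.2) h5) ⟨a, ha, rfl⟩ ⟨b, hb', h6⟩
    · rintro ⟨i, k⟩ hk x hx
      rw [Finset.mem_product, Finset.mem_range] at hk
      exact hst0 i k hk.2 x hx
    · rintro ⟨i, k⟩ _ x hx
      exact hder i (n + k) (by omega) x hx
  -- the limit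
  by_contra hcon
  push Not at hcon
  set a := (Fintype.card ι : ℝ) * ((mlog lam - η) ^ 2 / (C * s₀) ^ 2 * (volume β).toReal) with ha
  set b := 2 * Real.pi * (Real.log l + η) with hb'
  set e := 2 * Real.pi * Real.log (2 * ε / S) with he
  have h5 : ∀ N : ℕ, N * (a - b) ≤ e := by
    intro N
    have := key N
    rw [ha, hb', he]
    nlinarith
  obtain ⟨N, hN⟩ := exists_nat_gt (e / (a - b))
  have h6 : 0 < a - b := by linarith
  rw [div_lt_iff₀ h6] at hN
  linarith [h5 N]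

theorem TOR (h3 : V3.KO3_stmt) : TOR_stmt := by
  classical
  obtain ⟨C, hC1, hC⟩ := h3 (1 / 2) (by norm_num) (by norm_num)
  have hC' : ∀ (G : ℂ → ℂ) (a : ℂ) (r : ℝ), 0 < r → DifferentiableOn ℂ G (ball a r) →
      InjOn G (ball a r) → ∀ x ∈ ball a (r / 2), ‖G x - G a‖ ≤ C * ‖x - a‖ * ‖deriv G a‖ := by
    intro G a r hr hG hGi x hx
    refine ((hC G a r hr hG hGi).2 x ?_).2.2.1
    convert hx using 2
    ring
  refine ⟨1000 * (C ^ 2 / 3), by positivity, ?_⟩
  intro F A y c s S ξ p β hF hp h1 h2 hSn hξ hβ hβc hβ0 hs hsm hdis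
  set lam := deriv F p with hlam
  have hFd : HasDerivAt F lam p := (hF p).hasDerivAt
  have hβn : β.Nonempty := nonempty_of_measure_ne_zero hβ0.ne'
  have hfin : volume β ≠ ⊤ := ((measure_mono hβc).trans_lt measure_ball_lt_top).ne
  have hV : 0 < (volume β).toReal := ENNReal.toReal_pos hβ0.ne' hfin
  have hml : 0 < mlog lam := by
    refine lt_max_of_lt_right (lt_min one_pos ?_)
    have := norm_pos_iff.2 (sub_ne_zero.2 h2)
    positivity
  have : Nonempty S := hSn.to_subtype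
  have hcard : Fintype.card S = S.card := Fintype.card_coe S
  have hη : ∀ η : ℝ, 0 < η → η < mlog lam →
      (S.card : ℝ) * ((mlog lam - η) ^ 2 / (C * s) ^ 2 * (volume β).toReal) ≤ 2 * Real.pi * (Real.log ‖lam‖ + η) := by
    intro η hη0 hη1
    have h4 := TOR_eta2 hC1 hC' (ι := S) (A := A) (s₀ := s) hFd hp h1 (fun i => ξ i.1) (fun i => (hξ i.1 i.2).1)
      (fun i => (hξ i.1 i.2).2.1) (fun i => (hξ i.1 i.2).2.2) hβ hβc hβn hs hsm
      (fun i i' j j' hne => hdis i.1 i.2 i'.1 i'.2 j j' (fun h => hne (by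
        simp only [Prod.mk.injEq] at h ⊢
        exact ⟨Subtype.ext h.1, h.2⟩))) hη0 hη1
    rwa [hcard] at h4
  -- the limit
  have hlim : (S.card : ℝ) * ((mlog lam - 0) ^ 2 / (C * s) ^ 2 * (volume β).toReal) ≤ 2 * Real.pi * (Real.log ‖lam‖ + 0) := by
    have hl : Continuous fun η : ℝ => (S.card : ℝ) * ((mlog lam - η) ^ 2 / (C * s) ^ 2 * (volume β).toReal) := by fun_prop
    have hr : Continuous fun η : ℝ => 2 * Real.pi * (Real.log ‖lam‖ + η) := by fun_prop
    refine le_of_tendsto_of_tendsto (b := 𝓝[>] (0 : ℝ)) (hl.continuousAt.mono_left nhdsWithin_le_nhds)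
      (hr.continuousAt.mono_left nhdsWithin_le_nhds) ?_
    filter_upwards [Ioo_mem_nhdsGT hml] with η hη'
    exact hη η hη'.1 hη'.2
  rw [sub_zero, add_zero] at hlim
  have hpi := Real.pi_pos
  have hn0 : (0 : ℝ) < S.card := by exact_mod_cast Finset.card_pos.2 hSn
  have hC0 : 0 < C := by linarith
  have hkey : S.card * ((volume β).toReal / s ^ 2) * mlog lam ^ 2 ≤ 6 * Real.pi * (C ^ 2 / 3) * Real.log ‖lam‖ := by
    have h4 : (S.card : ℝ) * (mlog lam ^ 2 / (C * s) ^ 2 * (volume β).toReal) =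
        S.card * ((volume β).toReal / s ^ 2) * mlog lam ^ 2 / C ^ 2 := by
      field_simp
    rw [h4, div_le_iff₀ (by positivity)] at hlim
    linarith
  refine ⟨?_, ?_⟩
  · by_contra hc
    have h5 : ‖lam‖ = 1 := le_antisymm (not_lt.1 hc) h1
    rw [h5, Real.log_one, mul_zero] at hkey
    have h6 : 0 < S.card * ((volume β).toReal / s ^ 2) * mlog lam ^ 2 := by positivity
    linarith
  · exact TR_alg h1 h2 (by positivity) (by positivity) hkey

end EG
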