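import Pool.Agent.helper80.EG.Tools

/-!
# The landing inequality (torus inequality) by length and area

`TOR`: finitely many backward tubes `Ξ i j` (`i` = cell, `j` = number of backward steps) of `F` which land at the
fixed point `p` and have bounded multiplicity `M`: their number is at most `1000 M (Re (1/(λ-1)) + 1/2)`.
-/

set_option autoImplicit false

open Complex Metric Set Filter Topology MeasureTheory

noncomputable section

namespace EG80

/-- lower bound of the distance of `0` to the logarithms of `μ` -/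
def mlog (mu : ℂ) : ℝ := max (Real.log ‖mu‖) (min 1 (‖mu - 1‖ / 3))

theorem mlog_nonneg (mu : ℂ) : 0 ≤ mlog mu :=
  le_max_of_le_right (le_min zero_le_one (by positivity))

theorem mlog_le {d mu : ℂ} (h : Complex.exp d = mu) : mlog mu ≤ ‖d‖ := by
  refine max_le ?_ ?_
  · rw [← h, Complex.norm_exp, Real.log_exp]
    exact Complex.re_le_norm d
  · by_cases hd : ‖d‖ ≤ 1
    · refine (min_le_right _ _).trans ?_
      have := Complex.norm_exp_sub_one_le hd
      rw [h] at this
      linarith [norm_nonneg d]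
    · exact (min_le_left _ _).trans (le_of_lt (not_le.1 hd))

theorem TR_low {u : ℂ → ℂ} {w : ℂ} (hu : DifferentiableOn ℂ u (ball 0 3)) (h0 : ∀ z ∈ ball (0 : ℂ) 3, u z ≠ 0)
    (hw : ‖w‖ ≤ 3 / 2) {mu : ℂ} (hmu : u w = mu * u 0) :
    ENNReal.ofReal (mlog mu ^ 2 / 3) ≤ ∫⁻ z in ball 0 2, ENNReal.ofReal (‖deriv u z / u z‖ ^ 2) := by
  obtain ⟨g, hg, hexp⟩ := TL_log (by norm_num : (0 : ℝ) < 3) hu h0
  set A := ∫⁻ z in ball (0 : ℂ) 2, ENNReal.ofReal (‖deriv u z / u z‖ ^ 2) with hA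
  by_cases hAt : A = ⊤
  · rw [hAt]
    exact le_top
  have hq : DifferentiableOn ℂ (fun z => deriv u z / u z) (ball 0 3) := (hu.deriv isOpen_ball).div hu h0
  -- the bound of the derivative
  have hb : ∀ z ∈ closedBall (0 : ℂ) (3 / 2), Real.pi / 4 * ‖deriv u z / u z‖ ^ 2 ≤ A.toReal := by
    intro z hz
    rw [mem_closedBall, dist_zero_right] at hz
    have hsub : ball z (1 / 2) ⊆ ball 0 2 := by
      refine ball_subset_ball' ?_
      rw [dist_zero_right]
      linarith
    have hsub3 : ball z (1 / 2) ⊆ ball 0 3 := hsub.trans (ball_subset_ball (by norm_num))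
    have h1 := TL_sq (by norm_num : (0 : ℝ) < 1 / 2) (hq.mono hsub3)
    have h2 : ENNReal.ofReal (Real.pi * (1 / 2) ^ 2 * ‖deriv u z / u z‖ ^ 2) ≤ A :=
      h1.trans (lintegral_mono_set hsub)
    have h3 := (ENNReal.ofReal_le_iff_le_toReal hAt).1 h2
    linarith [h3]
  set C := Real.sqrt (4 / Real.pi * A.toReal) with hC
  have hC0 : 0 ≤ C := Real.sqrt_nonneg _
  have hC2 : C ^ 2 = 4 / Real.pi * A.toReal := Real.sq_sqrt (by positivity)
  have hb' : ∀ z ∈ closedBall (0 : ℂ) (3 / 2), ‖deriv u z / u z‖ ≤ C := by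
    intro z hz
    refine Real.le_sqrt_of_sq_le ?_
    have := hb z hz
    have hpi := Real.pi_pos
    rw [div_mul_eq_mul_div, le_div_iff₀ hpi]
    linarith
  have hcb : closedBall (0 : ℂ) (3 / 2) ⊆ ball 0 3 := closedBall_subset_ball (by norm_num)
  have hd : ‖g w - g 0‖ ≤ C * ‖w - 0‖ := by
    refine (convex_closedBall (0 : ℂ) (3 / 2)).norm_image_sub_le_of_norm_hasDerivWithin_le
      (f' := fun z => deriv u z / u z) ?_ hb' ?_ ?_
    · exact fun z hz => (hg z (hcb hz)).hasDerivWithinAt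
    · exact mem_closedBall_self (by norm_num)
    · simpa using hw
  have hw3 : w ∈ ball (0 : ℂ) 3 := by
    rw [mem_ball, dist_zero_right]
    linarith
  have h03 : (0 : ℂ) ∈ ball (0 : ℂ) 3 := mem_ball_self (by norm_num)
  have he : Complex.exp (g w - g 0) = mu := by
    rw [Complex.exp_sub, hexp w hw3, hexp 0 h03, hmu, mul_div_assoc, div_self (h0 0 h03), mul_one]
  have h4 := mlog_le he
  have h5 : mlog mu ≤ C * (3 / 2) := by
    refine h4.trans (hd.trans ?_)
    rw [sub_zero]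
    exact mul_le_mul_of_nonneg_left hw hC0
  have h6 : mlog mu ^ 2 ≤ (C * (3 / 2)) ^ 2 := pow_le_pow_left₀ (mlog_nonneg mu) h5 2
  refine ENNReal.ofReal_le_of_le_toReal ?_
  have h7 : (C * (3 / 2)) ^ 2 = 9 / Real.pi * A.toReal := by
    rw [mul_pow, hC2]
    ring
  have h8 : 9 / Real.pi * A.toReal ≤ 3 * A.toReal := by
    refine mul_le_mul_of_nonneg_right ?_ ENNReal.toReal_nonneg
    rw [div_le_iff₀ Real.pi_pos]
    linarith [Real.pi_gt_three]
  linarith

theorem TR_sum {κ : Type*} [DecidableEq κ] (T : Finset κ) (E : κ → Set ℂ) (hE : ∀ k ∈ T, MeasurableSet (E k)) (M : ℕ)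
    (hM : ∀ z, ∀ s ⊆ T, (∀ k ∈ s, z ∈ E k) → s.card ≤ M) (S : Set ℂ) (hS : MeasurableSet S)
    (hES : ∀ k ∈ T, E k ⊆ S) (f : ℂ → ENNReal) (hf : Measurable f) :
    ∑ k ∈ T, ∫⁻ z in E k, f z ≤ M * ∫⁻ z in S, f z := by
  classical
  have h1 : ∑ k ∈ T, ∫⁻ z in E k, f z = ∑ k ∈ T, ∫⁻ z, (E k).indicator f z :=
    Finset.sum_congr rfl fun k hk => (lintegral_indicator (hE k hk) f).symm
  rw [h1, ← lintegral_finsetSum' T fun k hk => (hf.indicator (hE k hk)).aemeasurable,
    ← lintegral_indicator hS, ← lintegral_const_mul _ (hf.indicator hS)]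
  refine lintegral_mono fun z => ?_
  set s := T.filter fun k => z ∈ E k with hs
  have hsum : ∑ k ∈ T, (E k).indicator f z = s.card * f z := by
    have h2 : ∀ k, (E k).indicator f z = if z ∈ E k then f z else 0 := fun k => by
      by_cases hk : z ∈ E k
      · rw [indicator_of_mem hk, if_pos hk]
      · rw [indicator_of_notMem hk, if_neg hk]
    simp_rw [h2]
    rw [← Finset.sum_filter, ← hs, Finset.sum_const, nsmul_eq_mul]
  rw [hsum]
  have hc : s.card ≤ M := hM z s (Finset.filter_subset _ _) fun k hk => (Finset.mem_filter.1 hk).2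
  by_cases hz : z ∈ S
  · rw [indicator_of_mem hz]
    exact mul_le_mul' (by exact_mod_cast hc) le_rfl
  · have h3 : s.card = 0 := by
      rw [Finset.card_eq_zero, hs, Finset.filter_eq_empty_iff]
      intro k hk hzk
      exact hz (hES k hk hzk)
    rw [h3]
    simp

/-- the area count for one block of steps -/
theorem TR_area {κ : Type*} [DecidableEq κ] (T : Finset κ) (v : κ → ℂ → ℂ) (hd : ∀ k ∈ T, DifferentiableOn ℂ (v k) (ball 0 3))
    (hi : ∀ k ∈ T, InjOn (v k) (ball 0 2)) (M : ℕ)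
    (hM : ∀ z, ∀ s ⊆ T, (∀ k ∈ s, z ∈ v k '' ball 0 2) → s.card ≤ M) (s t a : ℝ) (hs : 0 < s) (hst : s ≤ t)
    (hsv : ∀ k ∈ T, ∀ x ∈ ball (0 : ℂ) 2, s < ‖v k x‖ ∧ ‖v k x‖ ≤ t)
    (ha : ∀ k ∈ T, ENNReal.ofReal a ≤ ∫⁻ z in ball 0 2, ENNReal.ofReal (‖deriv (v k) z / v k z‖ ^ 2)) :
    T.card * a ≤ M * (2 * Real.pi * Real.log (t / s)) := by
  have hsub : ball (0 : ℂ) 2 ⊆ ball 0 3 := ball_subset_ball (by norm_num)
  have hE : ∀ k ∈ T, MeasurableSet (v k '' ball 0 2) := by
    intro k hk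
    exact measurableSet_ball.image_of_continuousOn_injOn ((hd k hk).continuousOn.mono hsub) (hi k hk)
  have hfm : Measurable fun z : ℂ => ENNReal.ofReal (1 / ‖z‖ ^ 2) := by fun_prop
  have h1 := TR_sum T (fun k => v k '' ball 0 2) hE M hM {z : ℂ | ‖z‖ ∈ Ioc s t} (measurable_norm measurableSet_Ioc)
    (by
      rintro k hk _ ⟨x, hx, rfl⟩
      exact hsv k hk x hx) _ hfm
  rw [TL_v2 s t hs hst] at h1
  have h2 : ∀ k ∈ T, ENNReal.ofReal a ≤ ∫⁻ z in v k '' ball 0 2, ENNReal.ofReal (1 / ‖z‖ ^ 2) := by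
    intro k hk
    rw [TL_cv isOpen_ball measurableSet_ball hsub (hd k hk) (hi k hk)]
    refine (ha k hk).trans (le_of_eq ?_)
    refine setLIntegral_congr_fun measurableSet_ball fun x _ => ?_
    rw [← ENNReal.ofReal_mul (by positivity)]
    congr 1
    rw [norm_div, div_pow]
    ring
  have h3 : ∑ _k ∈ T, ENNReal.ofReal a ≤ M * ENNReal.ofReal (2 * Real.pi * Real.log (t / s)) :=
    (Finset.sum_le_sum h2).trans h1
  rw [Finset.sum_const, nsmul_eq_mul] at h3
  have hlog : 0 ≤ Real.log (t / s) := Real.log_nonneg ((one_le_div hs).2 hst)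
  have h4 : ENNReal.ofReal (T.card * a) ≤ ENNReal.ofReal (M * (2 * Real.pi * Real.log (t / s))) := by
    rw [ENNReal.ofReal_mul (by positivity), ENNReal.ofReal_mul (by positivity), ENNReal.ofReal_natCast,
      ENNReal.ofReal_natCast]
    exact h3
  exact (ENNReal.ofReal_le_ofReal_iff (by positivity)).1 h4

theorem mlog_cont {lam : ℂ} (h : lam ≠ 0) : ContinuousAt mlog lam := by
  unfold mlog
  refine Filter.Tendsto.max ?_ ?_
  · exact (Real.continuousAt_log (norm_ne_zero_iff.2 h)).comp continuous_norm.continuousAt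
  · refine Filter.Tendsto.min tendsto_const_nhds ?_
    have : Continuous fun x : ℂ => ‖x - 1‖ / 3 := by fun_prop
    exact this.continuousAt

/-- final algebra: from `card * mlog² ≤ 6 π M log ‖lam‖` to the index form -/
theorem TR_alg {lam : ℂ} (h1 : 1 ≤ ‖lam‖) (h2 : lam ≠ 1) {n M : ℝ} (hn : 0 ≤ n) (hM : 0 ≤ M)
    (h : n * mlog lam ^ 2 ≤ 6 * Real.pi * M * Real.log ‖lam‖) :
    n ≤ 1000 * M * ((1 / (lam - 1)).re + 1 / 2) := by
  have hpi := Real.pi_pos
  have hpi2 := Real.pi_lt_d2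
  have hD : lam - 1 ≠ 0 := sub_ne_zero.2 h2
  have hDn : 0 < ‖lam - 1‖ := norm_pos_iff.2 hD
  -- the index
  have hR : (1 / (lam - 1)).re + 1 / 2 = (‖lam‖ ^ 2 - 1) / (2 * ‖lam - 1‖ ^ 2) := by
    have e1 : ‖lam‖ ^ 2 = lam.re ^ 2 + lam.im ^ 2 := by
      rw [Complex.sq_norm, Complex.normSq_apply]; ring
    have e2 : ‖lam - 1‖ ^ 2 = (lam.re - 1) ^ 2 + lam.im ^ 2 := by
      rw [Complex.sq_norm, Complex.normSq_apply]
      simp
      ring
    have e3 : (1 / (lam - 1)).re = (lam.re - 1) / ‖lam - 1‖ ^ 2 := by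
      rw [one_div, Complex.inv_re, Complex.sq_norm]
      simp
    have e4 : 0 < ‖lam - 1‖ ^ 2 := by positivity
    rw [e3, e1, e2]
    rw [e2] at e4
    field_simp
    ring
  set r := ‖lam‖ with hr
  set D := ‖lam - 1‖ with hDdef
  have hDr : D ≤ r + 1 := by
    have := norm_sub_le lam 1
    simpa using this
  have hlog0 : 0 ≤ Real.log r := Real.log_nonneg h1
  have hml : Real.log r ≤ mlog lam := le_max_left _ _
  have hml2 : min 1 (D / 3) ≤ mlog lam := le_max_right _ _
  have hRn : 0 ≤ (r ^ 2 - 1) / (2 * D ^ 2) := by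
    have : 0 ≤ r ^ 2 - 1 := by nlinarith
    positivity
  rw [hR]
  by_cases hbig : 1 ≤ Real.log r
  · -- large multiplier
    have he : (2.7 : ℝ) ≤ r := by
      have h3 : Real.exp 1 ≤ r := by
        rw [← Real.exp_log (by linarith : (0 : ℝ) < r)]
        exact Real.exp_le_exp.2 hbig
      have := Real.exp_one_gt_d9
      linarith
    have h4 : n ≤ 6 * Real.pi * M := by
      have h5 : n * Real.log r ^ 2 ≤ 6 * Real.pi * M * Real.log r := by
        refine le_trans ?_ h
        exact mul_le_mul_of_nonneg_left (pow_le_pow_left₀ hlog0 hml 2) hn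
      have h6 : n * Real.log r ≤ 6 * Real.pi * M := by
        by_contra hc
        push Not at hc
        nlinarith [mul_lt_mul_of_pos_right hc (by linarith : 0 < Real.log r)]
      nlinarith
    have h7 : (1 / 5 : ℝ) ≤ (r ^ 2 - 1) / (2 * D ^ 2) := by
      rw [le_div_iff₀ (by positivity)]
      have : D ^ 2 ≤ (r + 1) ^ 2 := pow_le_pow_left₀ hDn.le hDr 2
      nlinarith
    calc n ≤ 6 * Real.pi * M := h4
      _ ≤ 1000 * M * (1 / 5) := by nlinarith
      _ ≤ _ := mul_le_mul_of_nonneg_left h7 (by positivity)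
  · push Not at hbig
    have hr3 : r < 3 := by
      have h3 : r < Real.exp 1 := by
        rw [← Real.exp_log (by linarith : (0 : ℝ) < r)]
        exact Real.exp_lt_exp.2 hbig
      have := Real.exp_one_lt_d9
      linarith
    have hD4 : D ≤ 4 := by linarith
    have h5 : D / 4 ≤ mlog lam := by
      refine le_trans ?_ hml2
      refine le_min ?_ ?_ <;> linarith
    have h6 : n * (D / 4) ^ 2 ≤ 6 * Real.pi * M * Real.log r :=
      (mul_le_mul_of_nonneg_left (pow_le_pow_left₀ (by positivity) h5 2) hn).trans h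
    have h7 : Real.log r ≤ (r ^ 2 - 1) / 2 := by
      have h8 := Real.log_le_sub_one_of_pos (by positivity : (0 : ℝ) < r ^ 2)
      rw [Real.log_pow] at h8
      push_cast at h8
      linarith
    have h9 : n * D ^ 2 ≤ 96 * Real.pi * M * ((r ^ 2 - 1) / 2) := by
      have h10 : 6 * Real.pi * M * Real.log r ≤ 6 * Real.pi * M * ((r ^ 2 - 1) / 2) :=
        mul_le_mul_of_nonneg_left h7 (by positivity)
      nlinarith
    have h11 : n ≤ 96 * Real.pi * M * ((r ^ 2 - 1) / (2 * D ^ 2)) := by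
      have h12 : 96 * Real.pi * M * ((r ^ 2 - 1) / (2 * D ^ 2)) = 96 * Real.pi * M * ((r ^ 2 - 1) / 2) / D ^ 2 := by
        field_simp
      rw [h12, le_div_iff₀ (by positivity)]
      exact h9
    refine h11.trans ?_
    have h13 : 96 * Real.pi * M ≤ 1000 * M := by nlinarith
    exact mul_le_mul_of_nonneg_right h13 hRn

/-- the multiplier of a fixed point at which a backward orbit lands -/
theorem TR_one {F : ℂ → ℂ} {p lam : ℂ} (hF : HasDerivAt F lam p) (hp : F p = p) {v : ℕ → ℂ} (hv : ∀ j, v j ≠ p)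
    (hlim : Tendsto v atTop (𝓝 p)) (hb : ∀ j, F (v (j + 1)) = v j) : 1 ≤ ‖lam‖ := by
  by_contra hc
  push Not at hc
  obtain ⟨c, hc1, hc2⟩ := exists_between hc
  have h1 : ∀ᶠ z in 𝓝 p, ‖F z - F p - lam * (z - p)‖ ≤ (c - ‖lam‖) * ‖z - p‖ := by
    have h := (hasDerivAt_iff_isLittleO.1 hF).def (by linarith : 0 < c - ‖lam‖)
    filter_upwards [h] with z hz
    rwa [smul_eq_mul, mul_comm (z - p)] at hz
  have h2 : ∀ᶠ j in atTop, ‖v j - p‖ ≤ c * ‖v (j + 1) - p‖ := by
    have h3 : ∀ᶠ j in atTop, ‖F (v j) - F p - lam * (v j - p)‖ ≤ (c - ‖lam‖) * ‖v j - p‖ := hlim.eventually h1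
    have h4 := (tendsto_add_atTop_nat 1).eventually h3
    filter_upwards [h4] with j hj
    rw [hb, hp] at hj
    calc ‖v j - p‖ = ‖(v j - p - lam * (v (j + 1) - p)) + lam * (v (j + 1) - p)‖ := by ring_nf
      _ ≤ (c - ‖lam‖) * ‖v (j + 1) - p‖ + ‖lam‖ * ‖v (j + 1) - p‖ := by
        refine (norm_add_le _ _).trans (add_le_add hj ?_)
        rw [norm_mul]
      _ = _ := by ring
  obtain ⟨n, hn⟩ := eventually_atTop.1 h2
  have h5 : ∀ k, ‖v n - p‖ ≤ ‖v (n + k) - p‖ := by
    intro k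
    induction k with
    | zero => simp
    | succ k ih =>
      refine ih.trans ((hn (n + k) (by omega)).trans ?_)
      rw [show n + (k + 1) = n + k + 1 by ring]
      nlinarith [norm_nonneg (v (n + k + 1) - p)]
  have h6 : Tendsto (fun k => ‖v (n + k) - p‖) atTop (𝓝 0) := by
    have h7 : Tendsto (fun k => v (n + k)) atTop (𝓝 p) := by
      have := hlim.comp (tendsto_add_atTop_nat n)
      refine this.congr fun k => ?_
      simp [add_comm]
    have := (h7.sub_const p).norm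
    simpa using this
  have h8 : ‖v n - p‖ ≤ 0 := ge_of_tendsto' h6 h5
  have h9 : v n = p := by
    have := norm_le_zero_iff.1 h8
    exact sub_eq_zero.1 this
  exact hv n h9

end EG80
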